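import Mathlib
import Pool.Agent.H851.Oligo.Closure

set_option autoImplicit false

/-! # MP_24fec0_al: closure under permutational wreath products

Let `𝒞` be the class of the groups which embed in a finitely presented group with a faithful
oligomorphic action (on `ℕ`) with finitely generated pointwise stabilizers of finite sets.
We show that `𝒞` is closed under restricted permutational wreath products `H ≀_X K`, where `K`
acts on `X` through a homomorphism to a finitely presented group `Γ` with a faithful action on `X`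
(finite or infinite) with finitely many orbits on pairs and finitely generated point stabilizers. -/

namespace Pool.Agent.Results.MP_24fec0_al.WreathProducts

open Pool.Agent.H851.Oligo
open Pool.Agent.Results.MP_24fec0_al.TypeAOligomorphic

/-- the restricted direct power: functions `X → H` with finite support -/
def FinSupp (X H : Type*) [Group H] : Subgroup (X → H) where
  carrier := {f | {x | f x ≠ 1}.Finite}
  one_mem' := by simp
  mul_mem' := by
    intro f g hf hg
    apply (Set.Finite.union hf hg).subset
    intro x hx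
    by_contra hcon
    simp only [Set.mem_union, Set.mem_ofPred_eq, not_or, not_not] at hcon
    apply hx
    change f x * g x = 1
    rw [hcon.1, hcon.2, one_mul]
  inv_mem' := by
    intro f hf
    apply Set.Finite.subset hf
    intro x hx h
    apply hx
    change (f x)⁻¹ = 1
    rw [h, inv_one]

theorem FinSupp_comp {X H : Type*} [Group H] (f : X → H) (hf : {x | f x ≠ 1}.Finite)
    (e : Equiv.Perm X) : {x | f (e x) ≠ 1}.Finite :=
  hf.preimage (f := e) e.injective.injOn

/-- `K` acts on the restricted direct power by moving the coordinates: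
`(k • f) x = f (k⁻¹ • x)` -/
def shift {X H K : Type*} [Group H] [Group K] (σ : K →* Equiv.Perm X) :
    K →* MulAut (FinSupp X H) where
  toFun k :=
    { toFun := fun f => ⟨fun x => f.1 (σ k⁻¹ x), FinSupp_comp f.1 f.2 _⟩
      invFun := fun f => ⟨fun x => f.1 (σ k x), FinSupp_comp f.1 f.2 _⟩
      left_inv := by
        intro f
        apply Subtype.ext
        funext x
        change f.1 (σ k⁻¹ (σ k x)) = f.1 x
        rw [← Equiv.Perm.mul_apply, ← map_mul, inv_mul_cancel, map_one, Equiv.Perm.one_apply]
      right_inv := by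
        intro f
        apply Subtype.ext
        funext x
        change f.1 (σ k (σ k⁻¹ x)) = f.1 x
        rw [← Equiv.Perm.mul_apply, ← map_mul, mul_inv_cancel, map_one, Equiv.Perm.one_apply]
      map_mul' := by
        intro f g
        apply Subtype.ext
        funext x
        rfl }
  map_one' := by
    apply MulEquiv.ext
    intro f
    apply Subtype.ext
    funext x
    change f.1 (σ 1⁻¹ x) = f.1 x
    rw [inv_one, map_one, Equiv.Perm.one_apply]
  map_mul' k l := by
    apply MulEquiv.ext
    intro f
    apply Subtype.ext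
    funext x
    change f.1 (σ (k * l)⁻¹ x) = f.1 (σ l⁻¹ (σ k⁻¹ x))
    rw [mul_inv_rev, map_mul, Equiv.Perm.mul_apply]

/-- the (restricted) permutational wreath product `H ≀_X K`; `K` acts on `X` by `σ` -/
abbrev PermWreath (H X : Type*) {K : Type*} [Group H] [Group K] (σ : K →* Equiv.Perm X) : Type _ :=
  FinSupp X H ⋊[shift σ] K

theorem oligo_of_typeA {H : Type*} [Group H] {Q T : Type} [Group Q] [Infinite T]
    (φ : H →* Q) (hφ : Function.Injective φ) (ρ : Q →* Equiv.Perm T) (h : TypeA Q T ρ) :
    EmbedsOligomorphic H :=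
  three_imp_two H (one_imp_three H (embedsTypeA_of φ hφ ρ h))

theorem embeds_mono {H L : Type*} [Group H] [Group L] (f : L →* H) (hf : Function.Injective f)
    (h : EmbedsOligomorphic H) : EmbedsOligomorphic L := by
  obtain ⟨m, rels, φ, ρ, hφ, hρ, h1, h2⟩ := h
  exact ⟨m, rels, φ.comp f, ρ, hφ.comp hf, hρ, h1, h2⟩

theorem typeA_perm (n : ℕ) : TypeA (Equiv.Perm (Fin n)) (Fin n) (MonoidHom.id _) := by
  refine ⟨inferInstance, fun a b h => h, ⟨Finset.univ, fun u v => ⟨1, (u, v), by simp, rfl, rfl⟩⟩,
    fun t => ?_⟩
  exact (Subgroup.fg_iff _).2 ⟨_, Subgroup.closure_eq _, Set.toFinite _⟩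

/-- every group of the class, and every finite group, embeds in a finitely presented group with
a faithful action with finitely many orbits on pairs and finitely generated stabilizers -/
theorem typeA_of_mem {K : Type*} [Group K] (hK : EmbedsOligomorphic K ∨ Finite K) :
    ∃ (G T : Type) (_ : Group G) (_ : Nonempty T) (ρ : G →* Equiv.Perm T) (φ : K →* G),
      TypeA G T ρ ∧ Function.Injective φ := by
  rcases hK with hK | hK
  · obtain ⟨Q, T, _, _, ρ, φ, h, hφ⟩ := typeA_of_embeds (two_imp_one K hK)
    exact ⟨Q, T, inferInstance, inferInstance, ρ, φ, h, hφ⟩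
  · obtain ⟨n, ⟨e⟩⟩ := Finite.exists_equiv_fin K
    have : Nonempty (Fin n) := ⟨e 1⟩
    refine ⟨Equiv.Perm (Fin n), Fin n, inferInstance, inferInstance, MonoidHom.id _,
      (e.permCongrHom : Equiv.Perm K ≃* Equiv.Perm (Fin n)).toMonoidHom.comp
        (MulAction.toPermHom K K), typeA_perm n, ?_⟩
    exact e.permCongrHom.injective.comp MulAction.toPerm_injective

theorem wreath {H K : Type*} [Group H] [Group K] {Γ X : Type} [Group Γ] [Nonempty X]
    (σ : Γ →* Equiv.Perm X) (hΓ : TypeA Γ X σ) (ψ : K →* Γ)
    (hH : EmbedsOligomorphic H) (hK : EmbedsOligomorphic K ∨ Finite K) :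
    EmbedsOligomorphic (PermWreath H X (σ.comp ψ)) := by
  obtain ⟨A, S, _, _, ρ, φ, hA, hφ⟩ := typeA_of_embeds (two_imp_one H hH)
  obtain ⟨Q, _, π, hQ, hsec, hdiag⟩ := typeA_wreath hA hΓ
  obtain ⟨G, T, _, _, τ, φK, hG, hφK⟩ := typeA_of_mem hK
  have hπ : Function.Injective π := hQ.2.1
  have hρ : Function.Injective ρ := hA.2.1
  let fn : FinSupp X H →* Equiv.Perm (S × X) :=
    diag.comp (((ρ.comp φ).compLeft X).comp (FinSupp X H).subtype)
  let fK : K →* Equiv.Perm (S × X) := (sec S).comp (σ.comp ψ)
  have hfn : ∀ f s x, fn f (s, x) = (ρ (φ (f.1 x)) s, x) := fun _ _ _ => rfl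
  have hfK : ∀ k s x, fK k (s, x) = (s, σ (ψ k) x) := fun _ _ _ => rfl
  let Φ : PermWreath H X (σ.comp ψ) →* Equiv.Perm (S × X) := SemidirectProduct.lift fn fK (by
    intro k
    apply MonoidHom.ext
    intro f
    change fn (shift (σ.comp ψ) k f) = fK k * fn f * (fK k)⁻¹
    rw [eq_mul_inv_iff_mul_eq]
    apply Equiv.ext
    rintro ⟨s, x⟩
    rw [Equiv.Perm.mul_apply, Equiv.Perm.mul_apply, hfK, hfn, hfn, hfK]
    change (ρ (φ (f.1 (σ (ψ k⁻¹) (σ (ψ k) x)))) s, _) = _
    rw [← Equiv.Perm.mul_apply, ← map_mul, ← map_mul, inv_mul_cancel, map_one, map_one,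
      Equiv.Perm.one_apply])
  have hΦ : ∀ w, Φ w = fn w.left * fK w.right := fun _ => rfl
  have hrange : ∀ w, Φ w ∈ π.range := by
    intro w
    rw [hΦ]
    refine mul_mem ?_ (hsec _)
    apply hdiag (fun x => φ (w.left.1 x))
    apply w.left.2.subset
    intro x hx h
    apply hx
    change φ (w.left.1 x) = 1
    rw [h, map_one]
  let Φ' : PermWreath H X (σ.comp ψ) →* Q :=
    (MonoidHom.ofInjective hπ).symm.toMonoidHom.comp (Φ.codRestrict π.range hrange)
  have hΦ' : ∀ w, π (Φ' w) = Φ w := by
    intro w
    have := MonoidHom.apply_ofInjective_symm hπ ⟨Φ w, hrange w⟩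
    exact this
  have hinj : Function.Injective
      (Φ'.prod (φK.comp (SemidirectProduct.rightHom :
        PermWreath H X (σ.comp ψ) →* K))) := by
    rw [injective_iff_map_eq_one]
    intro w hw
    have h1 : Φ' w = 1 := congrArg Prod.fst hw
    have h2 : φK w.right = 1 := congrArg Prod.snd hw
    have h3 : w.right = 1 := hφK (by rw [h2, map_one])
    have h4 : Φ w = 1 := by rw [← hΦ', h1, map_one]
    rw [hΦ, h3, map_one, mul_one] at h4
    apply SemidirectProduct.ext
    · apply Subtype.ext
      funext x
      apply hφ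
      apply hρ
      apply Equiv.ext
      intro s
      have h5 := congrArg (fun f : Equiv.Perm (S × X) => (f (s, x)).1) h4
      change ρ (φ (w.left.1 x)) s = s at h5
      rw [h5]
      change s = ρ (φ 1) s
      rw [map_one, map_one, Equiv.Perm.one_apply]
    · exact h3
  exact oligo_of_typeA _ hinj _ (typeA_prod hQ hG)

/-- Let `Γ` be a finitely presented group with a faithful action `σ` on a nonempty set `X` with
finitely many orbits on pairs and finitely generated point stabilizers, and let `K` act on `X`
through a homomorphism `ψ : K → Γ`.  If `H` satisfies the conclusion of the question, and `K`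
satisfies it or is finite, then so does the restricted permutational wreath product `H ≀_X K`. -/
theorem result (H K Γ X : Type) [Group H] [Group K] [Group Γ] [Nonempty X]
    (hfp : Group.IsFinitelyPresented Γ) (σ : Γ →* Equiv.Perm X) (hσ : Function.Injective σ)
    (hE : ∃ E : Finset (X × X), ∀ u v : X, ∃ g : Γ, ∃ p ∈ E, σ g p.1 = u ∧ σ g p.2 = v)
    (hst : ∀ x : X, ((MulAction.stabilizer (Equiv.Perm X) x).comap σ).FG)
    (ψ : K →* Γ) (hH : EmbedsOligomorphic H) (hK : EmbedsOligomorphic K ∨ Finite K) :
    EmbedsOligomorphic (PermWreath H X (σ.comp ψ)) :=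
  wreath σ ⟨hfp, hσ, hE, hst⟩ ψ hH hK

end Pool.Agent.Results.MP_24fec0_al.WreathProducts
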